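import Pool.Agent.K1H34.HYC.Stm

/-!
# HYC: labelling of the sparse vertices (`S_A1`)
-/

set_option autoImplicit false
open Classical Finset

namespace Pool.Agent.K1H51.HYC
open Pool.Agent.K1H34.HYC

lemma dg_mono {X : Type} [Fintype X] (Γ : SimpleGraph X) {A B : Finset X} (h : A ⊆ B) (x : X) :
    dg Γ A x ≤ dg Γ B x := by
  unfold dg
  exact card_le_card (filter_subset_filter _ h)

lemma sum_dg_le {V : Type} [Fintype V] (G : SimpleGraph V) (I : Finset V) (K : V → Finset V)
    (hd : ∀ i ∈ I, ∀ j ∈ I, i ≠ j → Disjoint (K i) (K j)) (z : V) :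
    ∑ i ∈ I, dg G (K i) z ≤ dg G univ z := by
  unfold dg
  rw [← card_biUnion]
  · apply card_le_card
    intro v hv
    simp only [mem_biUnion, mem_filter] at hv ⊢
    obtain ⟨i, _, _, h⟩ := hv
    exact ⟨mem_univ _, h⟩
  · intro i hi j hj hij
    exact (hd i hi j hj hij).mono (filter_subset _ _) (filter_subset _ _)

lemma dc {V : Type} [Fintype V] (G : SimpleGraph V) (A B : Finset V) :
    ∑ z ∈ A, dg G B z = ∑ v ∈ B, dg G A v := by
  unfold dg
  simp only [card_filter]
  rw [sum_comm]
  refine sum_congr rfl fun v _ => sum_congr rfl fun z _ => ?_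
  by_cases h : G.Adj z v
  · rw [if_pos h, if_pos h.symm]
  · rw [if_neg h, if_neg (fun h' => h h'.symm)]

lemma near_card (p k D : ℕ) :
    ((range (D + 1)).filter (fun l => near p l k)).card ≤ 2 * p := by
  have : (range (D + 1)).filter (fun l => near p l k) ⊆ Ico (k + 1 - p) (k + p) := by
    intro l hl
    rw [mem_filter] at hl
    obtain ⟨h1, h2⟩ := hl.2
    rw [mem_Ico]; omega
  refine (card_le_card this).trans ?_
  rw [Nat.card_Ico]; omega

/-- the pairs (neighbour in `S`, near label) -/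
noncomputable def PL {V : Type} [Fintype V] (G : SimpleGraph V) (c : V → V → ℕ) (p D : ℕ)
    (S : Finset V) (x : V) : Finset (V × ℕ) :=
  (S.filter (fun y => G.Adj x y)).biUnion
    (fun y => ((range (D + 1)).filter (fun l => near p l (c x y))).image (fun l => (y, l)))

lemma mem_PL {V : Type} [Fintype V] (G : SimpleGraph V) (c : V → V → ℕ) (p D : ℕ)
    (S : Finset V) (x y : V) (l : ℕ) :
    (y, l) ∈ PL G c p D S x ↔ y ∈ S ∧ G.Adj x y ∧ l ≤ D ∧ near p l (c x y) := by
  unfold PL
  simp only [mem_biUnion, mem_filter, mem_image, mem_range, Prod.mk.injEq]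
  constructor
  · rintro ⟨y', ⟨h1, h2⟩, l', ⟨h3, h4⟩, rfl, rfl⟩
    exact ⟨h1, h2, by omega, h4⟩
  · rintro ⟨h1, h2, h3, h4⟩
    exact ⟨y, ⟨h1, h2⟩, l, ⟨by omega, h4⟩, rfl, rfl⟩

lemma card_PL {V : Type} [Fintype V] (G : SimpleGraph V) (c : V → V → ℕ) (p D : ℕ)
    (S : Finset V) (x : V) : (PL G c p D S x).card ≤ dg G univ x * (2 * p) := by
  unfold PL
  refine (card_biUnion_le_card_mul _ _ (2 * p) ?_).trans ?_
  · intro y _
    exact card_image_le.trans (near_card _ _ _)
  · refine Nat.mul_le_mul_right _ ?_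
    unfold dg
    exact card_le_card (filter_subset_filter _ (subset_univ _))

lemma row_PL {V : Type} [Fintype V] (G : SimpleGraph V) (c : V → V → ℕ) (p D : ℕ)
    (S : Finset V) (x y : V) : row (PL G c p D S x) y ≤ if G.Adj y x then 2 * p else 0 := by
  unfold row
  split_ifs with h
  · have : (PL G c p D S x).filter (fun z => z.1 = y) ⊆
        ((range (D + 1)).filter (fun l => near p l (c x y))).image (fun l => (y, l)) := by
      rintro ⟨y', l⟩ hz
      rw [mem_filter] at hz
      obtain ⟨h1, h2⟩ := hz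
      simp only at h2
      subst h2
      rw [mem_PL] at h1
      simp only [mem_image, mem_filter, mem_range, Prod.mk.injEq]
      exact ⟨l, ⟨by omega, h1.2.2.2⟩, by simp⟩
    exact (card_le_card this).trans (card_image_le.trans (near_card _ _ _))
  · rw [Nat.le_zero, card_eq_zero, filter_eq_empty_iff]
    rintro ⟨y', l⟩ hz h2
    simp only at h2
    subst h2
    rw [mem_PL] at hz
    exact h hz.2.1.symm

lemma two_mul_le_two_pow (p : ℕ) (hp : 1 ≤ p) : 2 * p ≤ 2 ^ p := by
  induction p with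
  | zero => omega
  | succ n ih =>
    rcases Nat.eq_zero_or_pos n with h | h
    · subst h; norm_num
    · have := ih h
      rw [pow_succ]; omega

lemma num1 (x : ℝ) (hx : 1 ≤ x) :
    (x + 1) * 2 ^ (60 + 0 + 2) / 2 ^ 2520 ≤ x / 2 ^ 2451 := by
  have h : (2 : ℝ) ^ 2520 = 2 ^ 2451 * 2 ^ 69 := by rw [← pow_add]
  rw [h, div_le_div_iff₀ (by positivity) (by positivity)]
  have h2 : (0 : ℝ) < 2 ^ 2451 := by positivity
  have h3 : (x + 1) * 2 ^ (60 + 0 + 2) ≤ x * 2 ^ 69 := by
    norm_num
    linarith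
  calc (x + 1) * 2 ^ (60 + 0 + 2) * 2 ^ 2451 ≤ (x * 2 ^ 69) * 2 ^ 2451 :=
        mul_le_mul_of_nonneg_right h3 h2.le
    _ = x * (2 ^ 2451 * 2 ^ 69) := by rw [mul_assoc, mul_comm ((2 : ℝ) ^ 69)]

lemma num2 (x : ℝ) : x / 2 ^ (4 * 600 + 50) = x / 2 ^ 2451 + x / 2 ^ 2451 := by
  have h : (2 : ℝ) ^ 2451 = 2 ^ (4 * 600 + 50) * 2 := by
    rw [show 2451 = (4 * 600 + 50) + 1 from rfl, pow_succ]
  rw [h]
  generalize (2 : ℝ) ^ (4 * 600 + 50) = y
  rw [← two_mul, mul_comm y, ← mul_div_assoc, mul_div_mul_left _ _ (two_ne_zero)]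

lemma num3 (x : ℝ) (hx : 0 < x) :
    (((3 * 600 + 44) * 2 ^ 10 + 2 : ℕ) : ℝ) *
      ((2 * ((2520 : ℕ) : ℝ) + 6) * x / 2 ^ 60 + 2 * (x ^ 2 / 2 ^ 590) / x) ≤ x / 2 ^ 10 := by
  have e2 : 2 * (x ^ 2 / 2 ^ 590) / x = x * (2 / 2 ^ 590) := by
    field_simp
  rw [e2]
  have e3 : (2 : ℝ) / 2 ^ 590 ≤ 2 / 2 ^ 50 := by
    apply div_le_div_of_nonneg_left (by norm_num) (by positivity)
    exact pow_le_pow_right₀ (by norm_num) (by norm_num)
  have e4 : x * (2 / 2 ^ 590) ≤ x * (2 / 2 ^ 50) := mul_le_mul_of_nonneg_left e3 hx.le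
  refine le_trans (mul_le_mul_of_nonneg_left (add_le_add (le_refl _) e4) (by positivity)) ?_
  push_cast
  rw [show (1888258 : ℝ) * ((2 * 2520 + 6) * x / 2 ^ 60 +
      x * (2 / 2 ^ 50)) = x * (1888258 * ((2 * 2520 + 6) / 2 ^ 60 +
      (2 / 2 ^ 50))) by ring, div_eq_mul_inv]
  refine mul_le_mul_of_nonneg_left ?_ hx.le
  norm_num

theorem t_A1 (h1 : S_ST1) (h2 : S_POP) : S_A1 := by
  obtain ⟨D1, hST⟩ := h1 600
  refine ⟨((3 * 600 + 44) * 2 ^ 10 + 2) * 2460, max D1 8, ?_⟩
  intro D hD p hp hpl V _ G c I K S Z q hdeg hc hsym hG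
  have hD1 : D1 ≤ D := (le_max_left _ _).trans hD
  have hD8 : 8 ≤ D := (le_max_right _ _).trans hD
  have hD0 : (0 : ℝ) < D := by
    have : (8 : ℝ) ≤ D := by exact_mod_cast hD8
    linarith
  have hD8R : (8 : ℝ) ≤ D := by exact_mod_cast hD8
  have hlog : (2 : ℝ) ≤ Real.log D := by
    have h8 : Real.log 8 ≤ Real.log D := Real.log_le_log (by norm_num) hD8R
    have : Real.log 8 = 3 * Real.log 2 := by
      rw [show (8 : ℝ) = 2 ^ 3 by norm_num, Real.log_pow]; norm_num
    have := Real.log_two_gt_d9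
    linarith
  have hpD : p ≤ D := by
    have : (p : ℝ) ≤ D := hpl.trans (by
      have := Real.log_le_sub_one_of_pos hD0
      linarith)
    exact_mod_cast this
  -- popularity weights
  set w : V → V → ℕ := fun i z => if i ∈ I ∧ z ∈ S then dg G (K i) z else 0 with hw
  have hw1 : ∀ i x, (w i x : ℝ) ≤ D / 2 ^ 60 := by
    intro i x
    simp only [hw]
    split_ifs with h
    · exact hG.smallS x h.2 i h.1
    · simp only [Nat.cast_zero]; positivity
  have hw2' : ∀ x, ∑ i, w i x ≤ D := by
    intro x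
    simp only [hw]
    by_cases hx : x ∈ S
    · calc ∑ i, (if i ∈ I ∧ x ∈ S then dg G (K i) x else 0)
          = ∑ i, (if i ∈ I then dg G (K i) x else 0) := by
            refine sum_congr rfl fun i _ => ?_
            simp only [hx, and_true]
        _ = ∑ i ∈ I, dg G (K i) x := by
            rw [← sum_filter]
            congr 1
            ext i; simp
        _ ≤ dg G univ x := sum_dg_le G I K hG.disj x
        _ ≤ D := hdeg x
    · simp only [hx, and_false, if_false, sum_const_zero]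
      exact Nat.zero_le _
  have hw2 : ∀ x, ∑ i, w i x ≤ 2 ^ 0 * D := by
    intro x
    rw [pow_zero, one_mul]; exact hw2' x
  have hw3 : ∀ i, ((∑ x, w i x : ℕ) : ℝ) ≤ (D : ℝ) ^ 2 / 2 ^ 590 := by
    intro i
    by_cases hi : i ∈ I
    · have e1 : ∑ x, w i x = ∑ x ∈ S, dg G (K i) x := by
        simp only [hw, hi, true_and]
        rw [← sum_filter]
        congr 1
        ext i; simp
      rw [e1, dc]
      refine le_trans ?_ (hG.tot i hi)
      rw [Nat.cast_sum]
      refine sum_le_sum fun v _ => ?_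
      have : S ⊆ univ \ K i := by
        intro s hs
        rw [mem_sdiff]
        exact ⟨mem_univ _, fun h => (disjoint_left.1 (hG.SK i hi)) hs h⟩
      exact_mod_cast dg_mono G this v
    · have e1 : ∑ x, w i x = 0 := by
        simp only [hw, hi, false_and, if_false, sum_const_zero]
      rw [e1, Nat.cast_zero]; positivity
  obtain ⟨P2, r2, q1, q2, q3, q4, q5, q6, q7⟩ :=
    h2 60 0 2520 D V V w ((D : ℝ) ^ 2 / 2 ^ 590) (by omega) (by norm_num) hw1 hw2 hw3
  -- observers
  set P : V ⊕ (V × Fin (D + 1) × Fin (D + 1)) → Finset (V × ℕ) :=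
    Sum.elim (fun x => PL G c p D S x) P2 with hP
  set r : V ⊕ (V × Fin (D + 1) × Fin (D + 1)) → ℕ :=
    Sum.elim (fun _ => 2460 * p) r2 with hr
  have hD2 : (1 : ℝ) ≤ D := by linarith
  have c1 : ∀ o, 1 ≤ r o := by
    rintro (x | o)
    · simp only [hr, Sum.elim_inl]; omega
    · simp only [hr, Sum.elim_inr]; exact q1 o
  have hcardPL : ∀ x, (PL G c p D S x).card ≤ D * (2 * p) := fun x =>
    (card_PL G c p D S x).trans (Nat.mul_le_mul_right _ (hdeg x))
  have c2 : ∀ o, (P o).card ≤ D * r o := by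
    rintro (x | o)
    · simp only [hr, hP, Sum.elim_inl]
      refine (hcardPL x).trans (Nat.mul_le_mul_left _ (by omega))
    · simp only [hr, hP, Sum.elim_inr]; exact q2 o
  have c3 : ∀ o, (P o).card ≤ D ^ 4 := by
    rintro (x | o)
    · simp only [hP, Sum.elim_inl]
      refine (hcardPL x).trans ?_
      calc D * (2 * p) ≤ D * (D * D) := by
            refine Nat.mul_le_mul_left _ ?_
            exact Nat.mul_le_mul (by omega) hpD
        _ = D ^ 3 := by ring
        _ ≤ D ^ 4 := Nat.pow_le_pow_right (by omega) (by norm_num)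
    · simp only [hP, Sum.elim_inr]
      have h3 := q3 o
      have : ((P2 o).card : ℝ) ≤ ((D ^ 4 : ℕ) : ℝ) := by
        refine h3.trans ?_
        push_cast
        calc (D : ℝ) ^ 2 / 2 ^ 590 ≤ (D : ℝ) ^ 2 := by
              apply div_le_self (by positivity)
              exact one_le_pow₀ (by norm_num)
          _ ≤ (D : ℝ) ^ 4 := pow_le_pow_right₀ hD2 (by norm_num)
      exact_mod_cast this
  have c4 : ∀ o x, (row (P o) x : ℝ) ≤ (Real.log D) ^ 2 := by
    rintro (x | o) y
    · simp only [hP, Sum.elim_inl]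
      have h3 := row_PL G c p D S x y
      have h4 : row (PL G c p D S x) y ≤ 2 * p := by
        refine h3.trans ?_
        split_ifs <;> omega
      have h5 : (row (PL G c p D S x) y : ℝ) ≤ 2 * p := by exact_mod_cast h4
      refine h5.trans ?_
      nlinarith
    · simp only [hP, Sum.elim_inr]
      have h5 : (row (P2 o) y : ℝ) ≤ 1 := by exact_mod_cast q4 o y
      refine h5.trans ?_
      nlinarith
  have hnum : ∀ y, (univ.filter (fun i => w i y ≠ 0)).card ≤ D := by
    intro y
    refine le_trans ?_ (hw2' y)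
    rw [card_filter]
    refine sum_le_sum fun i _ => ?_
    split_ifs with h
    · omega
    · omega
  have c5 : ∀ y, (univ.filter (fun o => row (P o) y ≠ 0)).card ≤ D ^ 3 := by
    intro y
    have e : (univ.filter (fun o => row (P o) y ≠ 0)).card =
        (univ.filter (fun x : V => row (P (Sum.inl x)) y ≠ 0)).card +
        (univ.filter (fun o : V × Fin (D + 1) × Fin (D + 1) =>
          row (P (Sum.inr o)) y ≠ 0)).card := by
      simp only [card_filter]
      rw [Fintype.sum_sum_type]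
    have e1 : (univ.filter (fun x : V => row (P (Sum.inl x)) y ≠ 0)).card ≤ D := by
      refine le_trans ?_ (hdeg y)
      unfold dg
      apply card_le_card
      intro x hx
      rw [mem_filter] at hx ⊢
      refine ⟨mem_univ _, ?_⟩
      by_contra hn
      apply hx.2
      have h3 := row_PL G c p D S x y
      rw [if_neg hn] at h3
      simp only [hP, Sum.elim_inl]
      omega
    have e2 : (univ.filter (fun o : V × Fin (D + 1) × Fin (D + 1) =>
          row (P (Sum.inr o)) y ≠ 0)).card ≤ (D + 1) * D := by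
      refine (q5 y).trans (Nat.mul_le_mul_left _ (hnum y))
    rw [e]
    calc _ ≤ D + (D + 1) * D := by omega
      _ ≤ D ^ 3 := by nlinarith
  have c6 : ∀ y, ∑ o, (row (P o) y : ℝ) * (1 / 2) ^ (r o) ≤ (D : ℝ) / 2 ^ (4 * 600 + 50) := by
    intro y
    rw [Fintype.sum_sum_type]
    have e1 : ∑ x : V, (row (P (Sum.inl x)) y : ℝ) * (1 / 2) ^ (r (Sum.inl x)) ≤
        D / 2 ^ 2451 := by
      simp only [hP, hr, Sum.elim_inl]
      have hb : ((2 * p : ℕ) : ℝ) * (1 / 2) ^ (2460 * p) ≤ 1 / 2 ^ 2451 := by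
        have h3 : ((2 * p : ℕ) : ℝ) ≤ 2 ^ p := by exact_mod_cast two_mul_le_two_pow p hp
        have h4 : (1 / 2 : ℝ) ^ (2460 * p) ≤ 1 / 2 ^ (p + 2451) := by
          rw [one_div_pow]
          apply one_div_le_one_div_of_le (by positivity)
          exact pow_le_pow_right₀ (by norm_num) (by omega)
        calc ((2 * p : ℕ) : ℝ) * (1 / 2) ^ (2460 * p) ≤ 2 ^ p * (1 / 2 ^ (p + 2451)) :=
              mul_le_mul h3 h4 (by positivity) (by positivity)
          _ = 1 / 2 ^ 2451 := by
              rw [pow_add, mul_one_div, div_mul_eq_div_div, div_self (by positivity)]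
      calc ∑ x : V, (row (PL G c p D S x) y : ℝ) * (1 / 2) ^ (2460 * p)
          ≤ ∑ x : V, (if G.Adj y x then (1 / 2 ^ 2451 : ℝ) else 0) := by
            refine sum_le_sum fun x _ => ?_
            have h3 := row_PL G c p D S x y
            split_ifs with h
            · rw [if_pos h] at h3
              refine le_trans ?_ hb
              exact mul_le_mul_of_nonneg_right (by exact_mod_cast h3) (by positivity)
            · rw [if_neg h] at h3
              have : row (PL G c p D S x) y = 0 := by omega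
              rw [this]; simp
        _ = (dg G univ y : ℝ) * (1 / 2 ^ 2451) := by
            rw [← sum_filter, sum_const, nsmul_eq_mul]; rfl
        _ ≤ D * (1 / 2 ^ 2451) := by
            refine mul_le_mul_of_nonneg_right ?_ (by positivity)
            exact_mod_cast hdeg y
        _ = D / 2 ^ 2451 := by rw [mul_one_div]
    have e2 : ∑ o : V × Fin (D + 1) × Fin (D + 1), (row (P (Sum.inr o)) y : ℝ) *
        (1 / 2) ^ (r (Sum.inr o)) ≤ D / 2 ^ 2451 := by
      simp only [hP, hr, Sum.elim_inr]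
      exact (q6 y).trans (num1 _ hD2)
    rw [num2]
    exact add_le_add e1 e2
  obtain ⟨f, f1, f2, f3⟩ := hST D hD1 V (V ⊕ (V × Fin (D + 1) × Fin (D + 1))) G S P r hdeg
    hG.sparse c1 c2 c3 c4 c5 c6
  refine ⟨f, f1, f2, ?_, ?_⟩
  · intro x
    have h3 := f3 (Sum.inl x)
    have h4 : load G c p S f x ≤ hits (P (Sum.inl x)) S f := by
      unfold load hits
      apply card_le_card
      intro y hy
      rw [mem_filter] at hy ⊢
      refine ⟨hy.1, ?_⟩
      simp only [hP, Sum.elim_inl]
      rw [mem_PL]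
      exact ⟨hy.1, hy.2.1, f1 y hy.1, hy.2.2⟩
    refine h4.trans (h3.trans ?_)
    simp only [hr, Sum.elim_inl]
    exact le_of_eq (by ring)
  · intro i hi l
    have h3 := q7 S f ((3 * 600 + 44) * 2 ^ 10 + 2) f1 (fun o => f3 (Sum.inr o)) i l
    have e1 : ∑ z ∈ S.filter (fun z => f z = l), dg G (K i) z =
        ∑ z ∈ S.filter (fun z => f z = l), w i z := by
      refine sum_congr rfl fun z hz => ?_
      rw [mem_filter] at hz
      simp only [hw, hi, hz.1, and_self, if_true]
    rw [e1]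
    exact h3.trans (num3 _ hD0)

end Pool.Agent.K1H51.HYC
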